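import Pool.Agent.H487.I.Full
import Pool.Agent.H487.I.B1
import Pool.Agent.H487.I.E3
import Pool.Agent.H487.I.EQ1
import Pool.Agent.H487.I.A3
import Pool.Agent.H487.I.T2
import Pool.Agent.H487.I.H2
import Pool.Agent.Results.MP_4a9ea6_nt.TwoPartTwistsX15

/-!
# The 2-part of the formula of Birch and Swinnerton-Dyer for elliptic curves over `ℚ` with unbounded 2-primary
# Tate-Shafarevich groups: a positive proportion of the quadratic twists of a curve isogenous to `X_0(15)`

`A_D` is the quadratic twist by `D` of the curve `A : y² + x y + y = x³ + x² + 35 x - 28` (15a4), which is isogenous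
to `X_0(15)` and has no complex multiplication; `D > 1` is ANY squarefree integer `≡ 1` or `49` modulo `60`, with no
restriction on the prime factors, and `m` is the number of the prime factors `≡ 3` modulo `4` of `D` (an even number).
Let `z = L(A_D, 1) #A_D(ℚ)_tors² / (Ω ∏ c_p)`, which according to the conjecture is zero or the order of
`Ш(A_D/ℚ)`.  With no hypothesis on the rank or on `Ш` we prove, for all these `D`:
* the equation of `A_D` is a global minimal one, `L(A_D, s)` is entire, `∏ c_p = 2 ^ (2 k + 4 - m)` with `k` the number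
  of the prime factors of `D`, `#A_D(ℚ)_tors` is twice an odd number, and
  `z = 2 ^ (m - 2) w (a y / b)²` with integers `w`, `y`, `a`, `b`, where `w`, `a`, `b` are odd: the predicted order of `Ш`
  is divisible by `2 ^ (m - 2)` at two;
* if `A_D(ℚ)` is finite, then `Ш(A_D/ℚ)` contains `(ℤ/2) ^ (m - 2)`;
* the 2-part of the conjecture holds for `A_D` in the form that `L(A_D, 1) ≠ 0`, `A_D(ℚ)` is finite,
  `Ш(A_D/ℚ)[2^∞]` is isomorphic to `(ℤ/2) ^ (m - 2)` and `z` is a rational number of 2-adic valuation `m - 2`, if and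
  only if the following elementary condition `Crit D` holds: the only positive divisor `d` of `D` with `(d/5) = 1`,
  `(d/p) = 1` for all primes `p ∣ D/d` and `(-(D/d)/p) = 1` for all primes `p ∣ d` is `d = 1`;
* for every `δ > 0` the proportion of the `D` in the class for which this is the case and
  `|m - 2 - (log log D) / 2| ≤ δ log log D` is exactly `c = ∏_{i ≥ 1} (1 - 2^{-i}) = 0.2887…`.
So for a positive proportion of all the integers `D` the 2-part of the conjecture holds for `A_D`, in rank zero, with a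
group `Ш(A_D/ℚ)[2^∞] = (ℤ/2)^k`, `k = (1/2 + o(1)) log log D`; for every `M` the order of this group is at least `2^M`
for all of them except for a set of density zero.

Proof: the L-function, the criterion and the proportion for the isogenous curve `E_D` (twists of `X_0(15)`) are the
result `TwoPartTwistsX15` (project of helper757), from the library.  New: the isogeny `E_D → A_D` with kernel
`(0, 0)`: equality of the `a_p`, of the periods up to a factor two (change of variables), the Tamagawa numbers of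
`A_D` (types `I_2`, `I_8`, `I_0^*`), the torsion; the Selmer group of the dual isogeny `A_D → E_D` is the group of the
`± d`, `d ∣ D`, with `(d/5) = 1` and `(d/p) = 1` (`(D/d, p) = 1`) for the `p = 1` modulo `4`, and by linear algebra over
the field with two elements and the reciprocity law it has exactly `2 ^ m` elements if `Crit D` holds; the classes of
the rational points are `± 1`, `± D`; since `Ш(E_D/ℚ)[2] = 0`, every class of order a power of two comes from this Selmer
group (library of helper676).  Parts by helpers 280, 91, 271, 751, 573, 912, 783, 817, 727, 586, 610, 169, 525, 809, 369,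
60, 622 (files `Pool/Agent/H487/I`).
-/

set_option autoImplicit false
set_option linter.style.haveILetI false

open WeierstrassCurve MeasureTheory Filter Topology

namespace Pool.Agent.Results.MP_e996df_nt.TwoPartUnboundedSha

open scoped Classical

open Pool.Agent.TH841.SH.D (Sha)

/-- The curve `A_D`, the quadratic twist of `y² + x y + y = x³ + x² + 35 x - 28` by `D ≡ 1` modulo `4`:
`y² + x y + y = x³ + ((5 D - 1)/4) x² + ((71 D² - 1)/2) x - (111 D³ + 1)/4`.  With `t = 4 x - 3 D`,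
`u = 4 (2 y + x + 1)` it is `u² = t (t² + 14 D t + 625 D²)`. -/
def curve (D : ℤ) : WeierstrassCurve ℤ :=
  ⟨1, (5 * D - 1) / 4, 1, (71 * D ^ 2 - 1) / 2, -((111 * D ^ 3 + 1) / 4)⟩

/-- The curve given by the equation of `W` over the ring `R`. -/
abbrev base (W : WeierstrassCurve ℤ) (R : Type) [CommRing R] : WeierstrassCurve R :=
  W.map (Int.castRingHom R)

/-- `W` is a global minimal equation: `Δ ≠ 0` and `|Δ|` is minimal among the integral equations of the
same curve over `ℚ`. -/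
def Minimal (W : WeierstrassCurve ℤ) : Prop :=
  W.Δ ≠ 0 ∧ ∀ (W' : WeierstrassCurve ℤ) (C : VariableChange ℚ), C • base W ℚ = base W' ℚ →
    |W.Δ| ≤ |W'.Δ|

/-- The number of the affine points modulo `p`. -/
noncomputable def pts (W : WeierstrassCurve ℤ) (p : ℕ) : ℕ :=
  Nat.card {P : ZMod p × ZMod p // (base W (ZMod p)).toAffine.Equation P.1 P.2}

/-- `a_p = p + 1 - #W(𝔽_p)`, the points counted with the point at infinity. -/
noncomputable def a (W : WeierstrassCurve ℤ) (p : ℕ) : ℤ := p - pts W p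

/-- `L` is the L-function of the minimal equation `W`: it is entire, and for `Re s > 3/2` it is given by
the Euler product with the factors `(1 - a_p p^(-s) + p^(1 - 2 s))⁻¹` if `p` does not divide `Δ` and
`(1 - a_p p^(-s))⁻¹` otherwise. -/
def IsL (W : WeierstrassCurve ℤ) (L : ℂ → ℂ) : Prop :=
  Differentiable ℂ L ∧ ∀ s : ℂ, 3 / 2 < s.re →
    HasProd (fun p : Nat.Primes => (1 - (a W p : ℂ) * ((p : ℕ) : ℂ) ^ (-s) +
      (if ((p : ℕ) : ℤ) ∣ W.Δ then 0 else ((p : ℕ) : ℂ) ^ (1 - 2 * s)))⁻¹) (L s)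

/-- The point `P` of `W` over `ℚ_p` reduces to a singular point of the curve modulo `p`: the coordinates
are integral and both partial derivatives of `y² + a₁ x y + a₃ y - x³ - a₂ x² - a₄ x - a₆` are in the
maximal ideal. -/
def SingularReduction (W : WeierstrassCurve ℤ) (p : ℕ) [Fact p.Prime]
    (P : (base W ℚ_[p]).toAffine.Point) : Prop :=
  ∃ x y h, P = Affine.Point.some x y h ∧ ‖x‖ ≤ 1 ∧ ‖y‖ ≤ 1 ∧
    ‖W.a₁ * y - (3 * x ^ 2 + 2 * W.a₂ * x + W.a₄)‖ < 1 ∧ ‖2 * y + W.a₁ * x + W.a₃‖ < 1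

/-- `c p` is the Tamagawa number `[W(ℚ_p) : W⁰(ℚ_p)]` for all primes `p`, where `W⁰(ℚ_p)` is the subgroup
of the points which do not have singular reduction; it is `1` if `p` does not divide `Δ`. -/
def IsTamagawa (W : WeierstrassCurve ℤ) (c : ℕ → ℕ) : Prop :=
  ∀ (p : ℕ) [Fact p.Prime], (∃ H : AddSubgroup (base W ℚ_[p]).toAffine.Point,
    (∀ P, P ∈ H ↔ ¬ SingularReduction W p P) ∧ H.index = c p) ∧ (¬ (p : ℤ) ∣ W.Δ → c p = 1)

/-- The product of the Tamagawa numbers. -/
noncomputable def Tam (W : WeierstrassCurve ℤ) (c : ℕ → ℕ) : ℕ := ∏ p ∈ W.Δ.natAbs.primeFactors, c p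

/-- `4 x³ + b₂ x² + 2 b₄ x + b₆ = (2 y + a₁ x + a₃)²`. -/
def cubic (W : WeierstrassCurve ℤ) (x : ℝ) : ℝ := 4 * x ^ 3 + W.b₂ * x ^ 2 + 2 * W.b₄ * x + W.b₆

/-- `Ω = ∫_{W(ℝ)} |ω|` with `ω = dx / (2 y + a₁ x + a₃)`, as an integral over `x`: two real points lie
over each `x` with `cubic x > 0`. -/
noncomputable def Omega (W : WeierstrassCurve ℤ) : ℝ :=
  2 * ∫ x in {x : ℝ | 0 < cubic W x}, 1 / √(cubic W x)

/-- The order of the torsion subgroup of `W(ℚ)`. -/
noncomputable def torsOrder (W : WeierstrassCurve ℤ) : ℕ :=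
  Nat.card (AddCommGroup.torsion (base W ℚ).toAffine.Point)

/-- The order of the Tate-Shafarevich group predicted by the formula in rank zero, for the value `l` of
the L-function at `s = 1` and the Tamagawa numbers `c`: `l #W(ℚ)_tors² / (Ω ∏ c_p)`. -/
noncomputable def anOrder (W : WeierstrassCurve ℤ) (l : ℂ) (c : ℕ → ℕ) : ℂ :=
  l * (torsOrder W : ℂ) ^ 2 / ((Omega W : ℝ) * (Tam W c : ℂ))

/-- The 2-part of the strong conjecture of Birch and Swinnerton-Dyer for `W` over `ℚ`, in rank zero, with a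
2-primary part of `Ш` isomorphic to `(ℤ/2) ^ k`: `W` is minimal, `W(ℚ)` is finite, the elements of `Ш(W/ℚ)`
which are killed by a power of two are a group isomorphic to `(ℤ/2) ^ k`, `L(W, s)` is entire, `L(W, 1) ≠ 0`, and the
predicted order of `Ш` is a rational number of 2-adic valuation `k`. -/
def TwoPart (W : WeierstrassCurve ℤ) (k : ℕ) : Prop :=
  Minimal W ∧ Finite (base W ℚ).toAffine.Point ∧
  (∃ φ : (Fin k → ZMod 2) →+ Sha (base W ℚ), Function.Injective φ ∧
    ∀ x, x ∈ Set.range φ ↔ ∃ n : ℕ, 2 ^ n • x = 0) ∧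
  ∃ (L : ℂ → ℂ) (c : ℕ → ℕ) (z : ℚ), IsL W L ∧ L 1 ≠ 0 ∧ IsTamagawa W c ∧ 0 < Tam W c ∧
    0 < Omega W ∧ 0 < torsOrder W ∧ anOrder W (L 1) c = z ∧ z ≠ 0 ∧ padicValRat 2 z = k

/-- The class of the discriminants: all the squarefree `D > 1`, `D ≡ 1` or `49` modulo `60`. -/
def Adm (D : ℕ) : Prop := 1 < D ∧ Squarefree D ∧ (D % 60 = 1 ∨ D % 60 = 49)

/-- The number of the prime factors `≡ 3` modulo `4`. -/
def m (D : ℕ) : ℕ := (D.primeFactors.filter (fun p => p % 4 = 3)).card

/-- The elementary condition. -/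
def Crit (D : ℕ) : Prop := ∀ d : ℕ, d ∣ D →
  (∀ p : ℕ, p.Prime → p ∣ D → ¬ p ∣ d → jacobiSym d p = 1) →
  (∀ p : ℕ, p.Prime → p ∣ d → jacobiSym (-((D / d : ℕ) : ℤ)) p = 1) →
  jacobiSym d 5 = 1 → d = 1

/-- The statement for all `D` of the class: the equation is minimal, the L-function is entire, the product of
the Tamagawa numbers is `2 ^ (2 k + 4 - m)`, the torsion subgroup has `2 a` elements, `a` odd, the predicted order
of `Ш` is `2 ^ m w (a y / (2 b))²` with odd `w`, `b`, and `Ш` contains `(ℤ/2) ^ (m - 2)` if `A_D(ℚ)` is finite. -/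
def General (D : ℕ) : Prop :=
  Minimal (curve D) ∧
  (∃ (L : ℂ → ℂ) (c : ℕ → ℕ) (w y : ℤ) (a b : ℕ), IsL (curve D) L ∧ IsTamagawa (curve D) c ∧
    Tam (curve D) c * 2 ^ m D = 2 ^ (2 * D.primeFactors.card + 4) ∧ torsOrder (curve D) = 2 * a ∧
    0 < Omega (curve D) ∧ Odd w ∧ Odd a ∧ Odd b ∧
    anOrder (curve D) (L 1) c = 2 ^ m D * w * (a * y / (2 * b)) ^ 2 ∧ (Odd y ↔ Crit D)) ∧
  (Finite (base (curve D) ℚ).toAffine.Point →
    ∃ φ : (Fin (m D - 2) → ZMod 2) →+ Sha (base (curve D) ℚ), Function.Injective φ)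

/-- the number of the integers `D ≤ X` with `Q D` -/
noncomputable def count (Q : ℕ → Prop) (X : ℕ) : ℕ := Nat.card {D : ℕ // D ≤ X ∧ Q D}

/-- `c = ∏_{i ≥ 1} (1 - 2^{-i})` -/
noncomputable def cc : ℝ := ∏' i : ℕ, (1 - (1 / 2 : ℝ) ^ (i + 1))

section proof

open Pool.Agent.H487.I (Parts full)

lemma omega_eq (W : WeierstrassCurve ℤ) : Omega W = Pool.Agent.Y700.Omega W :=
  Pool.Agent.Results.MP_4a9ea6_nt.TwoPartTwistsX15.omega_eq W

/-- the Tamagawa numbers -/
noncomputable def cT (W : WeierstrassCurve ℤ) (p : ℕ) : ℕ :=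
  Pool.Agent.Results.MP_4a9ea6_nt.TwoPartTwistsX15.cT W p

lemma isTam (W : WeierstrassCurve ℤ) : IsTamagawa W (cT W) :=
  fun p _ => Pool.Agent.Results.MP_4a9ea6_nt.TwoPartTwistsX15.isTam W p

/-- the L-function is unique -/
lemma isL_unique {W : WeierstrassCurve ℤ} {f g : ℂ → ℂ} (hf : IsL W f) (hg : IsL W g) : f = g := by
  have h1 : AnalyticOnNhd ℂ f Set.univ := fun z _ => hf.1.analyticAt z
  have h2 : AnalyticOnNhd ℂ g Set.univ := fun z _ => hg.1.analyticAt z
  refine h1.eq_of_eventuallyEq (z₀ := 2) h2 ?_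
  have h3 : {s : ℂ | 3 / 2 < s.re} ∈ 𝓝 (2 : ℂ) := by
    refine (isOpen_lt continuous_const Complex.continuous_re).mem_nhds ?_
    show (3 / 2 : ℝ) < (2 : ℂ).re
    norm_num
  filter_upwards [h3] with s hs
  exact (hf.2 s hs).unique (hg.2 s hs)

/-- the Tamagawa numbers are unique -/
lemma tam_unique {W : WeierstrassCurve ℤ} {c c' : ℕ → ℕ} (h : IsTamagawa W c)
    (h' : IsTamagawa W c') : Tam W c = Tam W c' := by
  unfold Tam
  refine Finset.prod_congr rfl fun p hp => ?_
  haveI := Fact.mk (Nat.prime_of_mem_primeFactors hp)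
  obtain ⟨⟨H, e1, e2⟩, -⟩ := h p
  obtain ⟨⟨H', e1', e2'⟩, -⟩ := h' p
  have e : H = H' := by
    ext P
    rw [e1, e1']
  rw [← e2, ← e2', e]

lemma odd_val {n : ℤ} (hn : Odd n) : padicValRat 2 (n : ℚ) = 0 := by
  rw [padicValRat.of_int]
  have : padicValInt 2 n = 0 := by
    refine padicValInt.eq_zero_of_not_dvd ?_
    intro hd
    have h5 := Int.odd_iff.1 hn
    omega
  rw [this]
  rfl

/-- the 2-adic valuation of the predicted order -/
lemma val_z {w y : ℤ} {a b m : ℕ} (hw : Odd w) (ha : Odd a) (hb : Odd b) (hy : y ≠ 0) :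
    ((2 ^ m * w * (a * y / (2 * b)) ^ 2 : ℚ) ≠ 0) ∧
    padicValRat 2 (2 ^ m * w * (a * y / (2 * b)) ^ 2 : ℚ) = m - 2 + 2 * padicValRat 2 (y : ℚ) := by
  haveI : Fact (Nat.Prime 2) := ⟨Nat.prime_two⟩
  have hw0 : (w : ℚ) ≠ 0 := by
    rintro h
    have : w = 0 := by exact_mod_cast h
    rw [this] at hw
    exact absurd hw (by decide)
  have ha' : Odd (a : ℤ) := by exact_mod_cast ha
  have hb' : Odd (b : ℤ) := by exact_mod_cast hb
  have ha0 : ((a : ℤ) : ℚ) ≠ 0 := by
    have := ha.pos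
    exact_mod_cast this.ne'
  have hb0 : ((b : ℤ) : ℚ) ≠ 0 := by
    have := hb.pos
    exact_mod_cast this.ne'
  have hy0 : (y : ℚ) ≠ 0 := by exact_mod_cast hy
  have h20 : (2 : ℚ) ≠ 0 := two_ne_zero
  have e : (2 ^ m * w * (a * y / (2 * b)) ^ 2 : ℚ) =
      2 ^ m * w * (((a : ℤ) : ℚ) * y / (2 * ((b : ℤ) : ℚ))) ^ 2 := by push_cast; rfl
  have hq : ((a : ℤ) : ℚ) * y / (2 * ((b : ℤ) : ℚ)) ≠ 0 :=
    div_ne_zero (mul_ne_zero ha0 hy0) (mul_ne_zero h20 hb0)
  have v2 : padicValRat 2 (2 : ℚ) = 1 := by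
    have := padicValRat.self (p := 2) (by norm_num)
    exact_mod_cast this
  rw [e]
  refine ⟨mul_ne_zero (mul_ne_zero (pow_ne_zero _ h20) hw0) (pow_ne_zero 2 hq), ?_⟩
  rw [padicValRat.mul (mul_ne_zero (pow_ne_zero _ h20) hw0) (pow_ne_zero 2 hq),
    padicValRat.mul (pow_ne_zero _ h20) hw0, padicValRat.pow, padicValRat.pow,
    padicValRat.div (mul_ne_zero ha0 hy0) (mul_ne_zero h20 hb0),
    padicValRat.mul ha0 hy0, padicValRat.mul h20 hb0, odd_val hw, odd_val ha', odd_val hb', v2]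
  push_cast
  ring

theorem general (hP : Parts) {D : ℕ} (hD : Adm D) : General D := by
  obtain ⟨h1, hs, hm⟩ := hD
  obtain ⟨f1, f2, f3, ⟨f, w, y, a, b, f5, hw, ha, hb, hy, ht, f6⟩, f7, -⟩ := full hP h1 hs hm
  refine ⟨f1, ⟨f, cT (curve D), w, y, a, b, f5, isTam _, f2, ht, ?_, hw, ha, hb, ?_, hy⟩, f7⟩
  · rw [omega_eq]
    exact f3
  · refine Eq.trans ?_ f6
    unfold anOrder
    rw [omega_eq]
    rfl

theorem crit_iff (hP : Parts) {D : ℕ} (hD : Adm D) :
    Crit D ↔ 2 ≤ m D ∧ TwoPart (curve D) (m D - 2) := by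
  have hD' := hD
  obtain ⟨h1, hs, hm⟩ := hD'
  obtain ⟨g1, ⟨L, c, w, y, a, b, g2, g3, g4, g5, g6, hw, ha, hb, g7, hy⟩, -⟩ := general hP hD
  obtain ⟨-, -, -, -, -, f8⟩ := full hP h1 hs hm
  have hz : anOrder (curve D) (L 1) c = ((2 ^ m D * w * (a * y / (2 * b)) ^ 2 : ℚ) : ℂ) := by
    rw [g7]; push_cast; rfl
  constructor
  · intro hcr
    obtain ⟨k1, k2, k3⟩ := f8 hcr
    have hyo : Odd y := hy.2 hcr
    have hy0 : y ≠ 0 := by
      rintro rfl
      exact absurd hyo (by decide)
    obtain ⟨v1, v2⟩ := val_z (m := m D) hw ha hb hy0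
    have k1' : 2 ≤ m D := k1
    refine ⟨k1', g1, k2, k3, L, c, _, g2, ?_, g3, ?_, g6, ?_, hz, v1, ?_⟩
    · intro h0
      rw [h0] at hz
      unfold anOrder at hz
      rw [zero_mul, zero_div] at hz
      exact v1 (by exact_mod_cast hz.symm)
    · rcases Nat.eq_zero_or_pos (Tam (curve D) c) with h | h
      · rw [h, zero_mul] at g4
        exact absurd g4.symm (by positivity)
      · exact h
    · rw [g5]
      have := ha.pos
      omega
    · rw [v2, odd_val hyo]
      push_cast [Nat.cast_sub k1']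
      ring
  · rintro ⟨l0, -, -, -, L', c', z, l1, l2, l3, -, -, -, l4, l5, l6⟩
    have e1 : L' = L := isL_unique l1 g2
    have e2 : Tam (curve D) c' = Tam (curve D) c := tam_unique l3 g3
    have e3 : anOrder (curve D) (L' 1) c' = anOrder (curve D) (L 1) c := by
      unfold anOrder
      rw [e1, e2]
    rw [e3, hz] at l4
    have e4 : z = (2 ^ m D * w * (a * y / (2 * b)) ^ 2 : ℚ) := by exact_mod_cast l4.symm
    have hy0 : y ≠ 0 := by
      rintro rfl
      apply l5
      rw [e4]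
      push_cast
      ring
    obtain ⟨v1, v2⟩ := val_z (m := m D) hw ha hb hy0
    rw [e4, v2] at l6
    apply hy.1
    by_contra hne
    rw [Int.not_odd_iff_even] at hne
    have hv : 1 ≤ padicValRat 2 (y : ℚ) := by
      rw [padicValRat.of_int]
      haveI : Fact (Nat.Prime 2) := ⟨Nat.prime_two⟩
      have h3 : 1 ≤ padicValInt 2 y := by
        have h4 : ((2 : ℕ) : ℤ) ^ 1 ∣ y := by
          rw [pow_one]
          exact_mod_cast hne.two_dvd
        rcases (padicValInt_dvd_iff 1 y).1 h4 with h | h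
        · exact absurd h hy0
        · exact h
      exact_mod_cast h3
    have h5 : ((m D - 2 : ℕ) : ℤ) ≤ m D := by omega
    omega

/-- the size of `m` -/
def Near (δ : ℝ) (D : ℕ) : Prop :=
  |((m D - 2 : ℕ) : ℝ) - Real.log (Real.log D) / 2| ≤ δ * Real.log (Real.log D)

lemma near_all {δ : ℝ} (hδ : 0 < δ) : Tendsto (fun X : ℕ => (((Finset.Icc 1 X).filter fun D =>
    ¬ Near δ D).card : ℝ) / X) atTop (𝓝 0) := by
  have hLL : Tendsto (fun D : ℕ => Real.log (Real.log D)) atTop atTop :=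
    Real.tendsto_log_atTop.comp (Real.tendsto_log_atTop.comp tendsto_natCast_atTop_atTop)
  obtain ⟨N, hN⟩ := eventually_atTop.1 (hLL.eventually_ge_atTop (4 / δ))
  have h1 := Pool.Agent.H487.I.H2.normal (δ := δ / 2) (by positivity)
  have h2 : Tendsto (fun X : ℕ => (((Finset.Icc 1 X).filter fun D =>
      ¬ |(m D : ℝ) - 1 / 2 * Real.log (Real.log D)| ≤ δ / 2 * Real.log (Real.log D)).card : ℝ) / X +
      (N : ℝ) / X) atTop (𝓝 (0 + 0)) :=
    Tendsto.add h1 (tendsto_const_div_atTop_nhds_zero_nat (N : ℝ))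
  rw [add_zero] at h2
  refine squeeze_zero (fun X => by positivity) (fun X => ?_) h2
  rw [← add_div]
  apply div_le_div_of_nonneg_right _ (Nat.cast_nonneg X)
  have h3 : ((Finset.Icc 1 X).filter fun D => ¬ Near δ D) ⊆ ((Finset.Icc 1 X).filter fun D =>
      ¬ |(m D : ℝ) - 1 / 2 * Real.log (Real.log D)| ≤ δ / 2 * Real.log (Real.log D)) ∪
      Finset.range N := by
    intro D hD
    rw [Finset.mem_filter] at hD
    rw [Finset.mem_union, Finset.mem_filter, Finset.mem_range]
    by_contra hcon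
    push Not at hcon
    obtain ⟨c1, c2⟩ := hcon
    have c3 := c1 hD.1
    have c4 := hN D c2
    apply hD.2
    unfold Near
    have c5 : 4 ≤ δ * Real.log (Real.log D) := by
      have := mul_le_mul_of_nonneg_left c4 hδ.le
      rwa [mul_div_cancel₀ _ hδ.ne'] at this
    have c6 : ((m D - 2 : ℕ) : ℝ) ≤ m D := by exact_mod_cast Nat.sub_le _ _
    have c7 : (m D : ℝ) ≤ ((m D - 2 : ℕ) : ℝ) + 2 := by
      have : m D ≤ (m D - 2) + 2 := by omega
      exact_mod_cast this
    rw [abs_le] at c3 ⊢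
    constructor
    · linarith [c3.1]
    · linarith [c3.2]
  have h4 := (Finset.card_le_card h3).trans (Finset.card_union_le _ _)
  rw [Finset.card_range] at h4
  exact_mod_cast h4

lemma count_fin (Q : ℕ → Prop) [DecidablePred Q] (X : ℕ) : count Q X = ((Finset.range (X + 1)).filter Q).card := by
  unfold count
  rw [← Fintype.card_coe, ← Nat.card_eq_fintype_card]
  refine Nat.card_congr (Equiv.subtypeEquivRight fun D => ?_)
  rw [Finset.mem_filter, Finset.mem_range, Nat.lt_succ_iff]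

theorem density (P N : ℕ → Prop) (hP : ∀ D, Adm D → (P D ↔ Crit D))
    (hN : Tendsto (fun X : ℕ => (((Finset.Icc 1 X).filter fun D => ¬ N D).card : ℝ) / X)
      atTop (𝓝 0)) :
    Tendsto (fun X : ℕ => (count (fun D => Adm D ∧ P D ∧ N D) X : ℝ) / (count Adm X : ℝ)) atTop
      (𝓝 cc) ∧
    Tendsto (fun X : ℕ => (count Adm X : ℝ) / X) atTop (𝓝 (5 / (16 * Real.pi ^ 2))) := by
  obtain ⟨d1, d2⟩ := Pool.Agent.Results.MP_4a9ea6_nt.TwoPartTwistsX15.density
    Pool.Agent.H757_X15.DD.t_DEN Pool.Agent.H757_X15.EE.t_CLASS P hP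
  have d1' : Tendsto (fun X : ℕ => (count (fun D => Adm D ∧ P D) X : ℝ) / (count Adm X : ℝ)) atTop
      (𝓝 cc) := d1
  have d2' : Tendsto (fun X : ℕ => (count Adm X : ℝ) / X) atTop (𝓝 (5 / (16 * Real.pi ^ 2))) := d2
  refine ⟨?_, d2'⟩
  have hpos : (5 / (16 * Real.pi ^ 2) : ℝ) ≠ 0 := by positivity
  -- the exceptions
  have h1 : Tendsto (fun X : ℕ => ((((Finset.Icc 1 X).filter fun D => ¬ N D).card : ℝ) / X) /
      ((count Adm X : ℝ) / X)) atTop (𝓝 (0 / (5 / (16 * Real.pi ^ 2)))) := hN.div d2' hpos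
  rw [zero_div] at h1
  have h2 : Tendsto (fun X : ℕ => (count (fun D => Adm D ∧ P D) X : ℝ) / (count Adm X : ℝ) -
      ((((Finset.Icc 1 X).filter fun D => ¬ N D).card : ℝ) / X) / ((count Adm X : ℝ) / X)) atTop
      (𝓝 (cc - 0)) := d1'.sub h1
  rw [sub_zero] at h2
  refine tendsto_of_tendsto_of_tendsto_of_le_of_le' h2 d1' ?_ ?_
  · filter_upwards [eventually_ge_atTop 1] with X hX
    have hX0 : (X : ℝ) ≠ 0 := by positivity
    have h3 : count (fun D => Adm D ∧ P D) X ≤ count (fun D => Adm D ∧ P D ∧ N D) X +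
        ((Finset.Icc 1 X).filter fun D => ¬ N D).card := by
      rw [count_fin, count_fin]
      refine (Finset.card_le_card ?_).trans (Finset.card_union_le _ _)
      intro D hD
      rw [Finset.mem_filter, Finset.mem_range] at hD
      rw [Finset.mem_union, Finset.mem_filter, Finset.mem_filter, Finset.mem_range,
        Finset.mem_Icc]
      by_cases hn : N D
      · exact Or.inl ⟨hD.1, hD.2.1, hD.2.2, hn⟩
      · have := hD.2.1.1
        exact Or.inr ⟨⟨by omega, by omega⟩, hn⟩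
    have h4 : (count (fun D => Adm D ∧ P D) X : ℝ) ≤ count (fun D => Adm D ∧ P D ∧ N D) X +
        ((Finset.Icc 1 X).filter fun D => ¬ N D).card := by exact_mod_cast h3
    have h5 : (((Finset.Icc 1 X).filter fun D => ¬ N D).card : ℝ) / X / ((count Adm X : ℝ) / X) =
        (((Finset.Icc 1 X).filter fun D => ¬ N D).card : ℝ) / (count Adm X : ℝ) := by
      rw [div_div_div_cancel_right₀ hX0]
    rw [h5, ← sub_div]
    apply div_le_div_of_nonneg_right _ (Nat.cast_nonneg _)
    linarith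
  · refine Eventually.of_forall fun X => ?_
    apply div_le_div_of_nonneg_right _ (Nat.cast_nonneg _)
    have h3 : count (fun D => Adm D ∧ P D ∧ N D) X ≤ count (fun D => Adm D ∧ P D) X := by
      rw [count_fin, count_fin]
      apply Finset.card_le_card
      intro D hD
      rw [Finset.mem_filter] at hD ⊢
      exact ⟨hD.1, hD.2.1, hD.2.2.1⟩
    exact_mod_cast h3

theorem parts : Parts where
  b1 := ⟨fun _ _ h1 h2 i => Pool.Agent.H487.I.B1.locI_2 h1 h2 i,
    fun _ _ h1 h2 i => Pool.Agent.H487.I.B1.locI_7 h1 h2 i⟩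
  a3 := fun _ h1 h2 => Pool.Agent.H487.I.A3.card_V_ge h1 h2
  e3 := fun i _ h1 h2 => Pool.Agent.H487.I.E3.t3 i h1 h2
  q1 := fun _ _ _ h1 h2 h3 h4 h5 => Pool.Agent.H487.I.EQ1.tq1 h1 h2 h3 h4 h5
  t2 := fun _ h1 h2 h3 => Pool.Agent.H487.I.T2.tors_all h1 h2 h3

end proof

/-- **Main theorem.** The statement `General D` holds for all the `D` of the class.  The 2-part of the
conjecture holds for `A_D`, with `L(A_D, 1) ≠ 0`, `Ш(A_D/ℚ)[2^∞] ≅ (ℤ/2) ^ (m - 2)` and a predicted order of 2-adic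
valuation `m - 2`, `m ≥ 2`, if and only if the elementary condition `Crit D` holds.  For every `δ > 0` the
proportion of the `D` of the class for which this is the case and moreover `m - 2` differs from
`(log log D) / 2` by at most `δ log log D` is exactly `c = 0.2887…`, and the density of the class in the
integers is `5 / (16 π²) = 0.0316…`. -/
theorem result :
    (∀ D : ℕ, Adm D → General D) ∧
    (∀ D : ℕ, Adm D → (Crit D ↔ 2 ≤ m D ∧ TwoPart (curve D) (m D - 2))) ∧
    (0.2887 < cc ∧ cc < 0.2888) ∧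
    (∀ δ : ℝ, 0 < δ → Tendsto (fun X : ℕ => (count (fun D => Adm D ∧
      (2 ≤ m D ∧ TwoPart (curve D) (m D - 2)) ∧
      |((m D - 2 : ℕ) : ℝ) - Real.log (Real.log D) / 2| ≤ δ * Real.log (Real.log D)) X : ℝ) /
      (count Adm X : ℝ)) atTop (𝓝 cc)) ∧
    Tendsto (fun X : ℕ => (count Adm X : ℝ) / X) atTop (𝓝 (5 / (16 * Real.pi ^ 2))) := by
  have hP : ∀ D, Adm D → ((2 ≤ m D ∧ TwoPart (curve D) (m D - 2)) ↔ Crit D) :=
    fun D hD => (crit_iff parts hD).symm
  exact ⟨fun D hD => general parts hD, fun D hD => crit_iff parts hD,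
    Pool.Agent.H757_X15.DD.t_LA1.2.2.2,
    fun δ hδ => (density _ (Near δ) hP (near_all hδ)).1, (density _ (Near 1) hP
      (near_all one_pos)).2⟩

end Pool.Agent.Results.MP_e996df_nt.TwoPartUnboundedSha
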